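import Pool.Agent.helper69.LN.TSpec

/-!
# Project LN (MP_069684_lc), row TLB
-/

set_option autoImplicit false

namespace Pool.Agent.LN

open Finset Pool.Agent.helper38.Neg Pool.Agent.helper55.NT

theorem TLB (h1 : SUB_stmt) : TLB_stmt := by
  intro u n s K C o hC hloc hm
  obtain ⟨σ, hσ⟩ : ∃ σ : Fin n → Fin (min (u n) n) ⊕ Bool, σ = fun i : Fin n =>
      if h : (i : ℕ) < min (u n) n then Sum.inl ⟨(i : ℕ), h⟩ else Sum.inr false := ⟨_, rfl⟩
  obtain ⟨C', hC'1, hC'2⟩ := h1 n (min (u n) n) s σ C
  obtain ⟨o', ho'⟩ := hC'2 o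
  have hval : ∀ (x : Fin (min (u n) n) → Bool) (i : Fin (min (u n) n)),
      sb σ x (Fin.castLE (min_le_right _ _) i) = x i := by
    intro x i
    have e : σ (Fin.castLE (min_le_right _ _) i) = Sum.inl i := by
      rw [hσ]
      exact dif_pos i.2
    show Sum.elim x id (σ (Fin.castLE (min_le_right _ _) i)) = x i
    rw [e]
    rfl
  have hcomp : C'.Computes o' (lang (min (u n) n)) := by
    intro x
    rw [ho' x]
    refine (hC (sb σ x)).trans ?_
    show lang (min (u n) n) (fun i => sb σ x (Fin.castLE (min_le_right _ _) i)) ↔ _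
    have e : (fun i => sb σ x (Fin.castLE (min_le_right _ _) i)) = x := funext (hval x)
    rw [e]
  have hpat : C'.PatternsLE K := by
    intro x hx
    have e : (fun i => C'.notVals (x i)) = fun i => C.notVals (sb σ (x i)) := by
      funext i
      exact hC'1 (x i)
    rw [e]
    refine hloc (fun i => sb σ (x i)) ?_ ?_
    · intro i j hij a
      show Sum.elim (x i) id (σ a) ≤ Sum.elim (x j) id (σ a)
      rcases σ a with b | b
      · exact hx hij b
      · exact le_refl _
    · intro i j a ha
      have e2 : σ a = Sum.inr false := by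
        rw [hσ]
        apply dif_neg
        have := min_le_left (u n) n
        omega
      show Sum.elim (x i) id (σ a) = Sum.elim (x j) id (σ a)
      rw [e2]
      rfl
  have h2 := size_bound hm C' o' hcomp (Or.inr hpat)
  push_cast at h2
  push_cast
  linarith

end Pool.Agent.LN
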