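import Pool.Agent.helper69.LN.Spec

/-!
# Project LN (MP_069684_lc), row LBU
-/

set_option autoImplicit false

namespace Pool.Agent.LN

open Finset Pool.Agent.helper38.Neg Pool.Agent.helper55.NT

theorem LBU_mono {N n : ℕ} (σ : Fin N → Fin n ⊕ Bool) {x y : Fin n → Bool} (h : x ≤ y) :
    sb σ x ≤ sb σ y := by
  intro i
  show Sum.elim x id (σ i) ≤ Sum.elim y id (σ i)
  rcases σ i with j | b
  · exact h j
  · exact le_refl _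

/-- `v` and the square of its root. -/
theorem LBU_pow (ε : ℝ) (hε : 0 < ε) (hε1 : ε ≤ 1) (v r : ℕ) (hr : 1 ≤ r) (hv : v ≤ 4 * r ^ 2)
    (hbig : 4 * (4 : ℝ) ^ (2 / ε) ≤ v) :
    (v : ℝ) ^ (1 - ε) ≤ ((r : ℝ) ^ 2) ^ (1 - ε / 2) := by
  have hr0 : (0 : ℝ) < (r : ℝ) ^ 2 := by
    have : (0 : ℝ) < r := by exact_mod_cast hr
    positivity
  have hvR : (v : ℝ) ≤ 4 * (r : ℝ) ^ 2 := by exact_mod_cast hv
  have h1 : (v : ℝ) ^ (1 - ε) ≤ (4 * (r : ℝ) ^ 2) ^ (1 - ε) :=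
    Real.rpow_le_rpow (by positivity) hvR (by linarith)
  have h2 : (4 * (r : ℝ) ^ 2) ^ (1 - ε) = 4 ^ (1 - ε) * ((r : ℝ) ^ 2) ^ (1 - ε) :=
    Real.mul_rpow (by norm_num) hr0.le
  have h3 : (4 : ℝ) ^ (1 - ε) ≤ 4 := by
    calc (4 : ℝ) ^ (1 - ε) ≤ (4 : ℝ) ^ (1 : ℝ) :=
          Real.rpow_le_rpow_of_exponent_le (by norm_num) (by linarith)
      _ = 4 := Real.rpow_one _
  have h4 : (4 : ℝ) ≤ ((r : ℝ) ^ 2) ^ (ε / 2) := by
    have h5 : (4 : ℝ) ^ (2 / ε) ≤ (r : ℝ) ^ 2 := by linarith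
    calc (4 : ℝ) = ((4 : ℝ) ^ (2 / ε)) ^ (ε / 2) := by
          rw [← Real.rpow_mul (by norm_num)]
          have : 2 / ε * (ε / 2) = 1 := by field_simp
          rw [this, Real.rpow_one]
      _ ≤ ((r : ℝ) ^ 2) ^ (ε / 2) := Real.rpow_le_rpow (by positivity) h5 (by linarith)
  calc (v : ℝ) ^ (1 - ε) ≤ 4 ^ (1 - ε) * ((r : ℝ) ^ 2) ^ (1 - ε) := by rw [← h2]; exact h1
    _ ≤ ((r : ℝ) ^ 2) ^ (ε / 2) * ((r : ℝ) ^ 2) ^ (1 - ε) :=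
        mul_le_mul_of_nonneg_right (h3.trans h4) (by positivity)
    _ = ((r : ℝ) ^ 2) ^ (1 - ε / 2) := by
        rw [← Real.rpow_add hr0]
        congr 1
        ring

/-- Growth. -/
theorem LBU_growth (d : ℝ) (hd : 0 < d) (hd1 : d ≤ 1) (v r : ℕ) (hv : v ≤ 4 * r ^ 2)
    (hbig : (10 : ℝ) ^ (1 / (d / 8)) ≤ v) :
    (v : ℝ) ^ (d / 8) + 2 ≤ Real.sqrt ((⌊(r : ℝ) ^ d⌋₊ : ℝ) / 2) - 3 := by
  have hv0 : (0 : ℝ) < v := lt_of_lt_of_le (by positivity) hbig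
  have hvR : (v : ℝ) ≤ 4 * (r : ℝ) ^ 2 := by exact_mod_cast hv
  obtain ⟨y, hy⟩ : ∃ y : ℝ, y = (v : ℝ) ^ (d / 8) := ⟨_, rfl⟩
  have hy10 : 10 ≤ y := by
    rw [hy]
    calc (10 : ℝ) = ((10 : ℝ) ^ (1 / (d / 8))) ^ (d / 8) := by
          rw [← Real.rpow_mul (by norm_num)]
          have : 1 / (d / 8) * (d / 8) = 1 := by field_simp
          rw [this, Real.rpow_one]
      _ ≤ _ := Real.rpow_le_rpow (by positivity) hbig (by linarith)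
  have hy4 : y ^ 4 = (v : ℝ) ^ (d / 2) := by
    rw [hy, ← Real.rpow_natCast, ← Real.rpow_mul hv0.le]
    congr 1
    push_cast
    ring
  have hr : y ^ 4 / 2 ≤ (r : ℝ) ^ d := by
    have h1 : (v : ℝ) ^ (d / 2) ≤ (4 * (r : ℝ) ^ 2) ^ (d / 2) :=
      Real.rpow_le_rpow hv0.le hvR (by linarith)
    have h2 : (4 * (r : ℝ) ^ 2) ^ (d / 2) = 2 ^ d * (r : ℝ) ^ d := by
      have h3 : (4 * (r : ℝ) ^ 2) = (2 * (r : ℝ)) ^ (2 : ℝ) := by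
        rw [Real.rpow_two]
        ring
      rw [h3, ← Real.rpow_mul (by positivity)]
      have : (2 : ℝ) * (d / 2) = d := by ring
      rw [this, Real.mul_rpow (by norm_num) (by positivity)]
    have h4 : (2 : ℝ) ^ d ≤ 2 := by
      calc (2 : ℝ) ^ d ≤ (2 : ℝ) ^ (1 : ℝ) :=
            Real.rpow_le_rpow_of_exponent_le (by norm_num) hd1
        _ = 2 := Real.rpow_one _
    have h5 : (2 : ℝ) ^ d * (r : ℝ) ^ d ≤ 2 * (r : ℝ) ^ d :=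
      mul_le_mul_of_nonneg_right h4 (by positivity)
    rw [hy4]
    linarith
  have hl : y ^ 4 / 2 - 1 ≤ (⌊(r : ℝ) ^ d⌋₊ : ℝ) := by
    have := Nat.lt_floor_add_one ((r : ℝ) ^ d)
    linarith
  have hs : y + 5 ≤ Real.sqrt ((⌊(r : ℝ) ^ d⌋₊ : ℝ) / 2) := by
    apply Real.le_sqrt_of_sq_le
    have h1 : 2 * (y + 5) ^ 2 ≤ y ^ 4 / 2 - 1 := by
      have h2 : 100 * y ^ 2 ≤ y ^ 4 := by nlinarith [sq_nonneg y, sq_nonneg (y - 10)]
      nlinarith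
    linarith
  rw [← hy]
  linarith

theorem LBU (h1 : PRJ_stmt) (h2 : SUB_stmt) : LBU_stmt := by
  intro ε₀ hε₀
  obtain ⟨ε, hε⟩ : ∃ ε : ℝ, ε = min ε₀ 1 := ⟨_, rfl⟩
  have hεp : 0 < ε := by rw [hε]; exact lt_min hε₀ one_pos
  have hε1 : ε ≤ 1 := by rw [hε]; exact min_le_right _ _
  have hεε : ε ≤ ε₀ := by rw [hε]; exact min_le_left _ _
  obtain ⟨δ₁, hδ₁, M₁, hfin⟩ := clique_final (ε / 2) (by linarith)
  obtain ⟨d, hd⟩ : ∃ d : ℝ, d = min δ₁ 1 := ⟨_, rfl⟩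
  have hdp : 0 < d := by rw [hd]; exact lt_min hδ₁ one_pos
  have hd1 : d ≤ 1 := by rw [hd]; exact min_le_right _ _
  have hdδ : d ≤ δ₁ := by rw [hd]; exact min_le_left _ _
  refine ⟨d / 8, by linarith, max (max 4 (M₁ ^ 2))
    (max ⌈(10 : ℝ) ^ (1 / (d / 8))⌉₊ ⌈4 * (4 : ℝ) ^ (2 / ε)⌉₊), ?_⟩
  intro v hv M k hvk hkM U hU hUv s K C o hC hloc hK
  have hv4 : 4 ≤ v := (le_max_left _ _).trans ((le_max_left _ _).trans hv)
  have hvM : M₁ ^ 2 ≤ v := (le_max_right _ _).trans ((le_max_left _ _).trans hv)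
  have hv10 : (10 : ℝ) ^ (1 / (d / 8)) ≤ v := (Nat.le_ceil _).trans
    (by exact_mod_cast (le_max_left _ _).trans ((le_max_right _ _).trans hv))
  have hve : 4 * (4 : ℝ) ^ (2 / ε) ≤ v := (Nat.le_ceil _).trans
    (by exact_mod_cast (le_max_right _ _).trans ((le_max_right _ _).trans hv))
  obtain ⟨r, hr⟩ : ∃ r : ℕ, r = Nat.sqrt v := ⟨_, rfl⟩
  have hrv : r ^ 2 ≤ v := by rw [hr, sq]; exact Nat.sqrt_le v
  have hr2 : 2 ≤ r := by rw [hr, Nat.le_sqrt]; omega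
  have hrM : M₁ ≤ r := by rw [hr, Nat.le_sqrt, ← sq]; exact hvM
  have hvr : v ≤ 4 * r ^ 2 := by
    have h : v < (r + 1) * (r + 1) := by rw [hr]; exact Nat.lt_succ_sqrt v
    nlinarith
  obtain ⟨l, hl⟩ : ∃ l : ℕ, l = ⌊(r : ℝ) ^ d⌋₊ := ⟨_, rfl⟩
  have hr1R : (1 : ℝ) ≤ r := by exact_mod_cast (by omega : 1 ≤ r)
  have hlr : l ≤ r := by
    have h : (r : ℝ) ^ d ≤ r := by
      calc (r : ℝ) ^ d ≤ (r : ℝ) ^ (1 : ℝ) := Real.rpow_le_rpow_of_exponent_le hr1R hd1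
        _ = r := Real.rpow_one _
    rw [hl]
    exact Nat.floor_le_of_le h
  have hlδ : (l : ℝ) ≤ (r : ℝ) ^ δ₁ := by
    rw [hl]
    exact (Nat.floor_le (by positivity)).trans (Real.rpow_le_rpow_of_exponent_le hr1R hdδ)
  obtain ⟨σ, hσ1, hσ2⟩ := h1 M r l k U hU (hrv.trans hUv) hr2 hlr (by omega)
    (by
      have : r ^ 4 ≤ v ^ 2 := by
        calc r ^ 4 = (r ^ 2) ^ 2 := by ring
          _ ≤ v ^ 2 := Nat.pow_le_pow_left hrv 2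
      omega)
  obtain ⟨C', hC'1, hC'2⟩ := h2 (M * M) (r * r) s σ C
  obtain ⟨o', ho'⟩ := hC'2 o
  have hcomp : C'.Computes o' (Clique r l) := by
    intro x
    rw [ho' x, hC (sb σ x)]
    exact hσ1 x
  have hpat : C'.PatternsLE K := by
    intro x hx
    have e : (fun i => C'.notVals (x i)) = fun i => C.notVals (sb σ (x i)) := by
      funext i
      exact hC'1 (x i)
    rw [e]
    refine hloc (fun i => sb σ (x i)) (fun i j hij => LBU_mono σ (hx hij)) ?_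
    intro i j e he
    show Sum.elim (x i) id (σ (finProdFinEquiv e)) = Sum.elim (x j) id (σ (finProdFinEquiv e))
    rcases hs : σ (finProdFinEquiv e) with a | b
    · exact absurd (hσ2 e a hs) he
    · rfl
  have hv1R : (1 : ℝ) ≤ v := by exact_mod_cast (by omega : 1 ≤ v)
  have hK' : (K : ℝ) ≤ ((r : ℝ) ^ 2) ^ (1 - ε / 2) := by
    calc (K : ℝ) ≤ (v : ℝ) ^ (1 - ε₀) := hK
      _ ≤ (v : ℝ) ^ (1 - ε) := Real.rpow_le_rpow_of_exponent_le hv1R (by linarith)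
      _ ≤ _ := LBU_pow ε hεp hε1 v r (by omega) hvr hve
  have hfin' := hfin r hrM l hlδ (2 + s) K C' o' hcomp (Or.inr hpat) hK'
  have hg := LBU_growth d hdp hd1 v r hvr hv10
  rw [← hl] at hg
  have h3 : (2 : ℝ) ^ ((v : ℝ) ^ (d / 8) + 2) ≤ (2 : ℝ) ^ (Real.sqrt ((l : ℝ) / 2) - 3) :=
    Real.rpow_le_rpow_of_exponent_le (by norm_num) hg
  have h4 : (2 : ℝ) ^ ((v : ℝ) ^ (d / 8) + 2) = 4 * (2 : ℝ) ^ ((v : ℝ) ^ (d / 8)) := by
    rw [Real.rpow_add (by norm_num), Real.rpow_two]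
    ring
  have h5 : (1 : ℝ) ≤ (2 : ℝ) ^ ((v : ℝ) ^ (d / 8)) :=
    Real.one_le_rpow (by norm_num) (by positivity)
  push_cast at hfin'
  linarith

end Pool.Agent.LN
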