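import Pool.Agent.helper69.LN.ESpec
import Pool.Agent.helper69.LN.MixHalf
import Pool.Agent.helper74.LN.LBU

/-!
# Project LN (MP_069684_lc), row EEV
-/

set_option autoImplicit false

namespace Pool.Agent.LN

open Finset Pool.Agent.helper38.Neg Pool.Agent.helper55.NT Pool.Agent.Mix

theorem EEV_touch {M : ℕ} (U : Finset (Fin M × Fin M)) : (touch U).card ≤ 2 * U.card := by
  unfold touch
  refine (Finset.card_union_le _ _).trans ?_
  have h1 : (U.image Prod.fst).card ≤ U.card := Finset.card_image_le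
  have h2 : (U.image Prod.snd).card ≤ U.card := Finset.card_image_le
  omega

/-- the size of the parameters -/
theorem EEV_par (ε : ℝ) (hε : 0 < ε) (m t K r l : ℕ) (hm : 1 ≤ m)
    (ht : (t : ℝ) ≤ (m : ℝ) ^ (ε / 64)) (ht1 : 1 ≤ t) (hl : l = 4 * t ^ 2 + 1)
    (hr : r = l * (8 * t ^ 2)) (hK : (K : ℝ) ≤ (m : ℝ) ^ (1 - ε))
    (hbig : (15360000 : ℝ) ≤ (m : ℝ) ^ (ε / 4)) : 6 * K * r ^ 4 ≤ m := by
  have hm0 : (0 : ℝ) < m := by exact_mod_cast hm
  have hm1 : (1 : ℝ) ≤ m := by exact_mod_cast hm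
  have hl5 : l ≤ 5 * t ^ 2 := by
    have : 1 ≤ t ^ 2 := Nat.one_le_pow _ _ ht1
    omega
  have hr40 : r ≤ 40 * t ^ 4 := by
    rw [hr]
    calc l * (8 * t ^ 2) ≤ 5 * t ^ 2 * (8 * t ^ 2) := Nat.mul_le_mul_right _ hl5
      _ = 40 * t ^ 4 := by ring
  have hr4 : (r : ℝ) ^ 4 ≤ 2560000 * (m : ℝ) ^ (ε / 4) := by
    have h1 : (r : ℝ) ≤ 40 * (t : ℝ) ^ 4 := by exact_mod_cast hr40
    calc (r : ℝ) ^ 4 ≤ (40 * (t : ℝ) ^ 4) ^ 4 := pow_le_pow_left₀ (by positivity) h1 4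
      _ = 2560000 * (t : ℝ) ^ 16 := by ring
      _ ≤ 2560000 * ((m : ℝ) ^ (ε / 64)) ^ 16 := by
          apply mul_le_mul_of_nonneg_left _ (by norm_num)
          exact pow_le_pow_left₀ (by positivity) ht 16
      _ = 2560000 * (m : ℝ) ^ (ε / 4) := by
          congr 1
          rw [← Real.rpow_natCast, ← Real.rpow_mul hm0.le]
          congr 1
          push_cast
          ring
  have h2 : (6 * K * r ^ 4 : ℝ) ≤ m := by
    calc (6 * K * r ^ 4 : ℝ) = 6 * (K * (r : ℝ) ^ 4) := by ring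
      _ ≤ 6 * ((m : ℝ) ^ (1 - ε) * (2560000 * (m : ℝ) ^ (ε / 4))) := by
          apply mul_le_mul_of_nonneg_left _ (by norm_num)
          exact mul_le_mul hK hr4 (by positivity) (by positivity)
      _ = 15360000 * ((m : ℝ) ^ (1 - ε) * (m : ℝ) ^ (ε / 4)) := by ring
      _ ≤ (m : ℝ) ^ (ε / 4) * ((m : ℝ) ^ (1 - ε) * (m : ℝ) ^ (ε / 4)) :=
          mul_le_mul_of_nonneg_right hbig (by positivity)
      _ = (m : ℝ) ^ (1 - ε / 2) := by
          rw [← Real.rpow_add hm0, ← Real.rpow_add hm0]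
          congr 1
          ring
      _ ≤ (m : ℝ) ^ (1 : ℝ) := Real.rpow_le_rpow_of_exponent_le hm1 (by linarith)
      _ = m := Real.rpow_one _
  exact_mod_cast h2

theorem EEV (h1 : EPC_stmt) (h2 : EPJ_stmt) (h3 : EWK_stmt) : EEV_stmt := by
  intro ε₀ hε₀
  obtain ⟨ε, hε⟩ : ∃ ε : ℝ, ε = min ε₀ 1 := ⟨_, rfl⟩
  have hεp : 0 < ε := by rw [hε]; exact lt_min hε₀ one_pos
  have hε1 : ε ≤ 1 := by rw [hε]; exact min_le_right _ _
  have hεε : ε ≤ ε₀ := by rw [hε]; exact min_le_left _ _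
  refine ⟨ε / 128, by linarith, max 1 (max ⌈(15360000 : ℝ) ^ (4 / ε)⌉₊ ⌈(3 : ℝ) ^ (128 / ε)⌉₊), ?_⟩
  intro M k U hU hcard hk hM s K₀ C o hC hloc₀ hK₀
  obtain ⟨m, hm⟩ : ∃ m : ℕ, m = U.card := ⟨_, rfl⟩
  rw [← hm] at hcard hM hK₀ ⊢
  have hm1 : 1 ≤ m := (le_max_left _ _).trans hcard
  have hmA : (15360000 : ℝ) ^ (4 / ε) ≤ m := (Nat.le_ceil _).trans
    (by exact_mod_cast (le_max_left _ _).trans ((le_max_right _ _).trans hcard))
  have hmB : (3 : ℝ) ^ (128 / ε) ≤ m := (Nat.le_ceil _).trans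
    (by exact_mod_cast (le_max_right _ _).trans ((le_max_right _ _).trans hcard))
  have hmR1 : (1 : ℝ) ≤ m := by exact_mod_cast hm1
  have hmR0 : (0 : ℝ) < m := by linarith
  obtain ⟨K, hKd⟩ : ∃ K : ℕ, K = max K₀ 1 := ⟨_, rfl⟩
  have hK1 : 1 ≤ K := by rw [hKd]; exact le_max_right _ _
  have hK : (K : ℝ) ≤ (m : ℝ) ^ (1 - ε) := by
    rw [hKd]
    push_cast
    apply max_le
    · exact hK₀.trans (Real.rpow_le_rpow_of_exponent_le hmR1 (by linarith))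
    · exact Real.one_le_rpow hmR1 (by linarith)
  have hloc : C.LocalLE (pos U) K := by
    intro x hx hx'
    refine (hloc₀ x hx hx').trans ?_
    rw [hKd]
    exact_mod_cast le_max_left K₀ 1
  have hA : (15360000 : ℝ) ≤ (m : ℝ) ^ (ε / 4) := by
    calc (15360000 : ℝ) = ((15360000 : ℝ) ^ (4 / ε)) ^ (ε / 4) := by
          rw [← Real.rpow_mul (by norm_num)]
          have : 4 / ε * (ε / 4) = 1 := by field_simp
          rw [this, Real.rpow_one]
      _ ≤ _ := Real.rpow_le_rpow (by positivity) hmA (by linarith)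
  obtain ⟨y, hy⟩ : ∃ y : ℝ, y = (m : ℝ) ^ (ε / 128) := ⟨_, rfl⟩
  have hy3 : 3 ≤ y := by
    rw [hy]
    calc (3 : ℝ) = ((3 : ℝ) ^ (128 / ε)) ^ (ε / 128) := by
          rw [← Real.rpow_mul (by norm_num)]
          have : 128 / ε * (ε / 128) = 1 := by field_simp
          rw [this, Real.rpow_one]
      _ ≤ _ := Real.rpow_le_rpow (by positivity) hmB (by linarith)
  have hy2 : y ^ 2 = (m : ℝ) ^ (ε / 64) := by
    rw [hy, ← Real.rpow_natCast, ← Real.rpow_mul hmR0.le]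
    congr 1
    push_cast
    ring
  obtain ⟨t, ht⟩ : ∃ t : ℕ, t = ⌊(m : ℝ) ^ (ε / 64)⌋₊ := ⟨_, rfl⟩
  have htle : (t : ℝ) ≤ (m : ℝ) ^ (ε / 64) := by
    rw [ht]
    exact Nat.floor_le (by positivity)
  have htge : (m : ℝ) ^ (ε / 64) < t + 1 := by
    rw [ht]
    exact Nat.lt_floor_add_one _
  have ht3 : 3 ≤ t := by
    rw [ht]
    apply Nat.le_floor
    rw [← hy2]
    push_cast
    nlinarith
  obtain ⟨l, hl⟩ : ∃ l : ℕ, l = 4 * t ^ 2 + 1 := ⟨_, rfl⟩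
  obtain ⟨r, hr⟩ : ∃ r : ℕ, r = l * (8 * t ^ 2) := ⟨_, rfl⟩
  have hpar := EEV_par ε hεp m t K r l hm1 htle (by omega) hl hr hK hA
  have ht2 : 1 ≤ t ^ 2 := Nat.one_le_pow _ _ (by omega)
  have hlr : l ≤ r := by
    rw [hr]
    exact Nat.le_mul_of_pos_right _ (by omega)
  have hl1 : 1 ≤ l := by omega
  have hr1 : 1 ≤ r := by omega
  have hlrr : l ^ 2 * r ^ 2 ≤ r ^ 4 := by
    calc l ^ 2 * r ^ 2 ≤ r ^ 2 * r ^ 2 := Nat.mul_le_mul_right _ (Nat.pow_le_pow_left hlr 2)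
      _ = r ^ 4 := by ring
  have hr4m : r ^ 4 ≤ m := by
    calc r ^ 4 = 1 * r ^ 4 := by ring
      _ ≤ 6 * K * r ^ 4 := Nat.mul_le_mul_right _ (by omega)
      _ ≤ m := hpar
  have hlt : l ^ 2 ≤ (touch U).card := by
    have h4 : (l ^ 2) ^ 2 ≤ (touch U).card ^ 2 := by
      calc (l ^ 2) ^ 2 = l ^ 4 := by ring
        _ ≤ r ^ 4 := Nat.pow_le_pow_left hlr 4
        _ ≤ m := hr4m
        _ = U.card := hm
        _ ≤ _ := card_le_touch U
    exact (Nat.pow_le_pow_iff_left (by norm_num)).1 h4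
  have htouch := EEV_touch U
  rw [← hm] at htouch
  have hq : l ^ 2 * r ^ 2 * K ≤ K * r ^ 4 := by
    calc l ^ 2 * r ^ 2 * K ≤ r ^ 4 * K := Nat.mul_le_mul_right _ hlrr
      _ = K * r ^ 4 := by ring
  have hq2 : l * r ≤ K * r ^ 4 := by
    calc l * r = 1 * (l * r) := by ring
      _ ≤ K * r ^ 4 := by
          apply Nat.mul_le_mul hK1
          calc l * r ≤ r * r := Nat.mul_le_mul_right _ hlr
            _ = r ^ 2 := by ring
            _ ≤ r ^ 4 := Nat.pow_le_pow_right (by omega) (by norm_num)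
  have hpar' : 6 * (K * r ^ 4) ≤ m := by
    calc 6 * (K * r ^ 4) = 6 * K * r ^ 4 := by ring
      _ ≤ m := hpar
  obtain ⟨P⟩ := h1 M r K U hU (by rw [← hm]; exact hpar)
  obtain ⟨σ, hσ1, hσ2⟩ := h2 M r K l k U hU P (by omega) (by omega) (by omega)
  obtain ⟨C', hsz, ρ, hρ, hrd⟩ := mix_sub (M * M) (K * (r * r)) s σ C
  have hcomp : C'.Computes (ρ o) (OrClique K r l) := by
    intro x
    rw [hρ x o]
    exact (hC (sb σ x)).trans (hσ1 x)
  have hpat : C'.PatternsLE K := by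
    intro x hx
    refine (mix_sub_pat σ C C' ρ hρ hrd x).trans ?_
    refine hloc (fun i => sb σ (x i)) (fun i j hij => LBU_mono σ (hx hij)) ?_
    intro j j' i hi
    obtain ⟨e, rfl⟩ := finProdFinEquiv.surjective i
    have he : e ∉ U := fun h => hi (Finset.mem_map_of_mem _ h)
    show Sum.elim (x j) id (σ (finProdFinEquiv e)) = Sum.elim (x j') id (σ (finProdFinEquiv e))
    rcases hs : σ (finProdFinEquiv e) with a | b
    · exact absurd (hσ2 e a hs) he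
    · rfl
  subst hr
  have hfin := h3 K t l (2 + s) ht3 (by omega) C' (ρ o) hcomp hpat
  rw [hsz] at hfin
  have hfinR : (2 : ℝ) ^ (t - 1 : ℕ) ≤ C.size + 1 := by exact_mod_cast hfin
  have h4 : (2 : ℝ) ^ (y + 1) ≤ (2 : ℝ) ^ (t - 1 : ℕ) := by
    rw [← Real.rpow_natCast]
    apply Real.rpow_le_rpow_of_exponent_le (by norm_num)
    rw [Nat.cast_sub (by omega)]
    push_cast
    rw [← hy2] at htge
    nlinarith
  have h5 : (2 : ℝ) ^ (y + 1) = 2 * (2 : ℝ) ^ y := by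
    rw [Real.rpow_add (by norm_num), Real.rpow_one]
    ring
  have h6 : (1 : ℝ) ≤ (2 : ℝ) ^ y := Real.one_le_rpow (by norm_num) (by linarith)
  rw [← hy]
  linarith

end Pool.Agent.LN
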