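import Pool.Agent.helper69.LN.GSpec

/-!
# Project LN (MP_069684_lc), row GWK
-/

set_option autoImplicit false

namespace Pool.Agent.LN

open Finset Pool.Agent.helper38.Neg Pool.Agent.helper55.NT Pool.Agent.helper83.Comb

/-- A threshold just above `t`. -/
theorem GWK_thr {ι : Type} [Finite ι] (u : ι → ℝ) (t : ℝ) :
    ∃ θ : ℝ, ∀ y, θ ≤ u y ↔ t < u y := by
  classical
  have hfin : (Set.range u).Finite := Set.finite_range _
  set S : Finset ℝ := hfin.toFinset.filter fun v => t < v with hS
  rcases S.eq_empty_or_nonempty with he | hne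
  · obtain ⟨b, hb⟩ := hfin.bddAbove
    refine ⟨b + 1, fun y => ?_⟩
    have h1 : u y ≤ b := hb ⟨y, rfl⟩
    constructor
    · intro h2; linarith
    · intro h2
      have : u y ∈ S := by
        rw [hS, Finset.mem_filter]
        exact ⟨hfin.mem_toFinset.2 ⟨y, rfl⟩, h2⟩
      rw [he] at this
      simp at this
  · refine ⟨S.min' hne, fun y => ?_⟩
    constructor
    · intro h2
      have h3 := (Finset.mem_filter.1 (S.min'_mem hne)).2
      exact lt_of_lt_of_le h3 h2
    · intro h2
      apply Finset.min'_le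
      rw [hS, Finset.mem_filter]
      exact ⟨hfin.mem_toFinset.2 ⟨y, rfl⟩, h2⟩

/-- A threshold above all values. -/
theorem GWK_top {ι : Type} [Finite ι] (u : ι → ℝ) : ∃ θ : ℝ, ∀ y, ¬ θ ≤ u y := by
  have hfin : (Set.range u).Finite := Set.finite_range _
  obtain ⟨b, hb⟩ := hfin.bddAbove
  refine ⟨b + 1, fun y => ?_⟩
  have h1 : u y ≤ b := hb ⟨y, rfl⟩
  intro h2
  linarith

/-- The walk: a stuck point. -/
theorem GWK_stuck (hconv : ∀ (n s : ℕ) (C : GC n s) (x y z : Fin n → Bool), x ≤ y → y ≤ z →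
      C.pat x = C.pat z → C.pat y = C.pat x)
    {n s K : ℕ} {κ : Type} (C : GC n s) (h : (κ → Bool) → Prop)
    (G : (ℕ → κ → Bool) → (Fin n → Bool)) (hGmono : Monotone G)
    (h0 : ¬ h (fun _ => false)) (hpat : C.PatLE K) :
    ∃ c j, j < K ∧ ((∀ l < j, ¬ h (c l)) ∧ ∀ l, j ≤ l → c l = fun _ => false) ∧
      ∀ y, ¬ h y → C.pat (G (Function.update c j y)) = C.pat (G c) := by
  classical
  let V : (Fin n → Bool) → List ℝ := C.pat
  let Valid : (ℕ → κ → Bool) → ℕ → Prop := fun c j =>
    (∀ l < j, ¬ h (c l)) ∧ ∀ l, j ≤ l → c l = fun _ => false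
  show ∃ c j, j < K ∧ Valid c j ∧
      ∀ y, ¬ h y → V (G (Function.update c j y)) = V (G c)
  by_contra hcon
  push Not at hcon
  have hch : ∀ c j, ∃ y, (j < K → Valid c j →
      ¬ h y ∧ V (G (Function.update c j y)) ≠ V (G c)) ∧
      (¬ (j < K ∧ Valid c j) → ¬ h y) := by
    intro c j
    by_cases hj : j < K ∧ Valid c j
    · obtain ⟨y, hy1, hy2⟩ := hcon c j hj.1 hj.2
      exact ⟨y, fun _ _ => ⟨hy1, hy2⟩, fun hh => absurd hj hh⟩
    · exact ⟨fun _ => false, fun h1 h2 => absurd ⟨h1, h2⟩ hj, fun _ => h0⟩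
  choose Y hY1 hY2 using hch
  let c : ℕ → (ℕ → κ → Bool) := fun j => Nat.rec (fun _ _ => false)
    (fun j cj => Function.update cj j (Y cj j)) j
  have hcs : ∀ j, c (j + 1) = Function.update (c j) j (Y (c j) j) := fun j => rfl
  have hYn : ∀ c j, ¬ h (Y c j) := by
    intro c j
    by_cases hj : j < K ∧ Valid c j
    · exact (hY1 c j hj.1 hj.2).1
    · exact hY2 c j hj
  have hval : ∀ j, Valid (c j) j := by
    intro j
    induction j with
    | zero => exact ⟨fun l hl => absurd hl (Nat.not_lt_zero _), fun l _ => rfl⟩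
    | succ j ih =>
      rw [hcs]
      refine ⟨fun l hl => ?_, fun l hl => ?_⟩
      · by_cases hlj : l = j
        · subst hlj
          rw [Function.update_self]
          exact hYn _ _
        · rw [Function.update_of_ne hlj]
          exact ih.1 l (by omega)
      · rw [Function.update_of_ne (by omega)]
        exact ih.2 l (by omega)
  have hcmono : Monotone c := by
    apply monotone_nat_of_le_succ
    intro j
    rw [hcs]
    intro l
    by_cases hlj : l = j
    · subst hlj
      rw [(hval l).2 l le_rfl, Function.update_self]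
      intro k; simp
    · rw [Function.update_of_ne hlj]
  have hx := hpat (fun j => G (c j)) (hGmono.comp hcmono)
  have hinj : Set.InjOn (fun j => V (G (c j))) (Set.Iic K) := by
    have key : ∀ i j, i < j → j ≤ K → V (G (c i)) ≠ V (G (c j)) := by
      intro i j hij hjK heq
      have h1 : V (G (c (i + 1))) = V (G (c i)) :=
        hconv n s C _ _ _ (hGmono (hcmono (Nat.le_succ i)))
          (hGmono (hcmono (show i + 1 ≤ j by omega))) heq
      have h2 := (hY1 (c i) i (by omega) (hval i)).2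
      rw [← hcs] at h2
      exact h2 h1
    intro i hi j hj hij
    rcases lt_trichotomy i j with hlt | heq | hlt
    · exact absurd hij (key i j hlt hj)
    · exact heq
    · exact absurd hij.symm (key j i hlt hi)
  have h3 : ((fun j => V (G (c j))) '' Set.Iic K).encard = (K : ℕ∞) + 1 := by
    rw [hinj.encard_image]
    have : (Set.Iic K : Set ℕ) = ((Finset.range (K + 1) : Finset ℕ) : Set ℕ) := by
      ext; simp
    rw [this, Set.encard_coe_eq_coe_finsetCard, Finset.card_range]
    rfl
  have h4 : ((fun j => V (G (c j))) '' Set.Iic K).encard ≤ K :=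
    (Set.encard_le_encard (Set.image_subset_range _ _)).trans hx
  rw [h3] at h4
  have h5 : ((K + 1 : ℕ) : ℕ∞) ≤ (K : ℕ∞) := by exact_mod_cast h4
  have h6 : K + 1 ≤ K := by exact_mod_cast h5
  omega

theorem GWK (h1 : GST_stmt) (h2 : GCH_stmt) : GWK_stmt := by
  intro n s K κ _ C o f h G hG hf h0 hcomp hpat
  classical
  have hGmono : Monotone G := by
    intro c c' hcc i
    rcases hG i with h1 | ⟨l, k, h1⟩
    · rw [h1, h1]
    · rw [h1, h1]; exact hcc l k
  obtain ⟨c, j, hjK, hv, hst⟩ := GWK_stuck (fun n s C => (h1 n s C).2.2.2.2) C h G hGmono h0 hpat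
  obtain ⟨-, -, g3, g4, -⟩ := h1 n s C
  let X : (κ → Bool) → (Fin n → Bool) := fun y => G (Function.update c j y)
  have hXf : ∀ y, f (X y) ↔ h y := by
    intro y
    simp only [X]
    rw [hf]
    constructor
    · rintro ⟨l, hl, hh⟩
      by_cases hlj : l = j
      · subst hlj
        rwa [Function.update_self] at hh
      · rw [Function.update_of_ne hlj] at hh
        rcases lt_or_ge l j with h1 | h1
        · exact absurd hh (hv.1 l h1)
        · rw [hv.2 l h1] at hh
          exact absurd hh h0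
    · intro hh
      exact ⟨j, hjK, by rwa [Function.update_self]⟩
  have hXav : ∀ i, (∃ b, ∀ y, X y i = b) ∨ ∃ k, ∀ y, X y i = y k := by
    intro i
    rcases hG i with h1 | ⟨l, k, h1⟩
    · exact Or.inl ⟨false, fun y => h1 _⟩
    · by_cases hlj : l = j
      · subst hlj
        refine Or.inr ⟨k, fun y => ?_⟩
        simp only [X]
        rw [h1, Function.update_self]
      · refine Or.inl ⟨c l k, fun y => ?_⟩
        simp only [X]
        rw [h1, Function.update_of_ne hlj]
  have hle : ∀ y, G c ≤ X y := by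
    intro y
    apply hGmono
    intro l
    by_cases hlj : l = j
    · subst hlj
      rw [hv.2 l le_rfl, Function.update_self]
      intro k; simp
    · rw [Function.update_of_ne hlj]
  obtain ⟨L, hL, hlen, hk⟩ := h2 n s κ C (G c) X hXav
  have hthr : ∀ i : Fin (n + s), ∃ θ : ℝ, ∀ y, θ ≤ C.star (G c) (X y) i ↔
      (i ∈ C.rd ∧ C.val (G c) i < C.star (G c) (X y) i) := by
    intro i
    by_cases hi : i ∈ C.rd
    · obtain ⟨θ, hθ⟩ := GWK_thr (fun y : κ → Bool => C.star (G c) (X y) i) (C.val (G c) i)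
      exact ⟨θ, fun y => (hθ y).trans ⟨fun h => ⟨hi, h⟩, fun h => h.2⟩⟩
    · obtain ⟨θ, hθ⟩ := GWK_top (fun y : κ → Bool => C.star (G c) (X y) i)
      exact ⟨θ, fun y => ⟨fun h => absurd h (hθ y), fun h => absurd h.1 hi⟩⟩
  choose θ hθ using hthr
  obtain ⟨θ0, hθ0⟩ := GWK_thr (fun y : κ → Bool => C.star (G c) (X y) o) 0
  have key : ∀ y, (0 < C.star (G c) (X y) o ∨
      ∃ i, i ∈ C.rd ∧ C.val (G c) i < C.star (G c) (X y) i) ↔ h y := by
    intro y
    constructor
    · intro hy
      by_contra hn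
      obtain ⟨e1, e2⟩ := g3 (G c) (X y) (hst y hn)
      rcases hy with hy | ⟨i, hi, hlt⟩
      · rw [e1] at hy
        exact hn ((hXf y).1 ((hcomp (X y)).1 hy))
      · rw [e1, e2 i hi] at hlt
        exact lt_irrefl _ hlt
    · intro hy
      by_cases hp : C.pat (X y) = C.pat (G c)
      · left
        rw [(g3 (G c) (X y) hp).1]
        exact (hcomp (X y)).2 ((hXf y).2 hy)
      · right
        obtain ⟨i, hi, hlt⟩ := g4 (G c) (X y) (hle y) hp
        exact ⟨i, hi, hlt⟩
  refine ⟨L, hL, hlen, n + s + 1,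
    Fin.cons (fun y => C.star (G c) (X y) o) (fun i y => C.star (G c) (X y) i),
    Fin.cons θ0 θ, ?_, ?_⟩
  · intro i
    refine Fin.cases ?_ (fun l => ?_) i
    · rw [Fin.cons_zero]
      exact hk o
    · rw [Fin.cons_succ]
      exact hk l
  · intro y
    rw [← key y, Fin.exists_fin_succ]
    simp only [Fin.cons_zero, Fin.cons_succ]
    rw [hθ0 y]
    constructor
    · rintro (h | ⟨i, hi⟩)
      · exact Or.inl h
      · exact Or.inr ⟨i, (hθ i y).1 hi⟩
    · rintro (h | ⟨i, hi⟩)
      · exact Or.inl h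
      · exact Or.inr ⟨i, (hθ i y).2 hi⟩

end Pool.Agent.LN
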